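import Mathlib

set_option autoImplicit false

open Topology Filter

namespace Pool.Agent.Results.MP_892d82_al.Mixable

/-- The law of `g ^ ε` with `ε` Bernoulli of parameter `p`, as an element of the group algebra. -/
noncomputable def fac {G : Type} [Group G] (x : G × ℝ) : MonoidAlgebra ℝ G :=
  (1 - x.2) • 1 + x.2 • MonoidAlgebra.of ℝ G x.1

/-- `G` is mixable: some product of such factors is the uniform distribution. -/
def IsMixable (G : Type) [Group G] [Fintype G] : Prop :=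
  ∃ l : List (G × ℝ), (∀ x ∈ l, 0 ≤ x.2 ∧ x.2 ≤ 1) ∧
    (l.map fac).prod = (Fintype.card G : ℝ)⁻¹ • ∑ g : G, MonoidAlgebra.of ℝ G g

variable {G : Type} [Group G]

def IsP (s : MonoidAlgebra ℝ G) : Prop :=
  ∃ l : List (G × ℝ), (∀ x ∈ l, 0 ≤ x.2 ∧ x.2 ≤ 1) ∧ (l.map fac).prod = s

lemma IsP.one : IsP (1 : MonoidAlgebra ℝ G) := ⟨[], by simp, by simp⟩

lemma IsP.mul {s t : MonoidAlgebra ℝ G} (hs : IsP s) (ht : IsP t) : IsP (s * t) := by
  obtain ⟨l, h1, rfl⟩ := hs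
  obtain ⟨m, h2, rfl⟩ := ht
  exact ⟨l ++ m, fun x hx => (List.mem_append.1 hx).elim (h1 x) (h2 x), by simp⟩

lemma IsP.fac (g : G) {p : ℝ} (h0 : 0 ≤ p) (h1 : p ≤ 1) : IsP (fac (g, p)) :=
  ⟨[(g, p)], by simp [h0, h1], by simp⟩

section Loc
variable {V : Type} [NormedAddCommGroup V] [NormedSpace ℝ V] [Fintype G]

noncomputable def Ph (ρ : G → V →L[ℝ] V) : List G → ℝ × V × (G → ℝ) → V
  | [] => fun _ => 0
  | g :: L => fun x => (1 + x.2.2 g) • ρ g x.2.1 + Ph ρ L x + (x.1 * (1 + x.2.2 g)) • ρ g (Ph ρ L x)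

omit [Group G] in
lemma Ph_smooth (ρ : G → V →L[ℝ] V) (L : List G) : ContDiff ℝ 1 (Ph ρ L) := by
  induction L with
  | nil => exact contDiff_const
  | cons g L ih =>
    have := (ρ g).contDiff (n := 1)
    unfold Ph
    fun_prop

omit [Fintype G] [Group G] in
lemma Ph_zero (ρ : G → V →L[ℝ] V) (L : List G) (w : V) (q : G → ℝ) :
    Ph ρ L (0, w, q) = (L.map fun g => (1 + q g) • ρ g w).sum := by
  induction L with
  | nil => rfl
  | cons g L ih => simp [Ph, ih]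

omit [Group G] in
lemma loc [FiniteDimensional ℝ V] (ρ : G → V →L[ℝ] V) (h0 : ∀ v, ∑ g, ρ g v = 0) (w : V)
    (hw : ∀ y, ∃ q : G → ℝ, ∑ g, q g • ρ g w = y) :
    ∃ δ > 0, ∀ e : ℝ, |e| < δ → ∀ w', ‖w' - w‖ < δ → ∀ y, ‖y‖ < δ →
      ∃ q : G → ℝ, ‖q‖ < 1 ∧ Ph ρ Finset.univ.toList (e, w', q) = y := by
  have := FiniteDimensional.complete ℝ V
  set L := (Finset.univ : Finset G).toList
  let Ψ : ℝ × V × (G → ℝ) → ℝ × V × V := fun x => (x.1, x.2.1, Ph ρ L x)
  have hP := (Ph_smooth ρ L).contDiffAt (x := (0, w, 0)) |>.hasStrictFDerivAt one_ne_zero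
  set D := fderiv ℝ (Ph ρ L) (0, w, 0)
  have hΨ : HasStrictFDerivAt Ψ ((ContinuousLinearMap.fst ℝ _ _).prod
      (((ContinuousLinearMap.fst ℝ _ _).comp (ContinuousLinearMap.snd ℝ _ _)).prod D))
      (0, w, 0) :=
    hasStrictFDerivAt_fst.prodMk ((hasStrictFDerivAt_fst.comp _ hasStrictFDerivAt_snd).prodMk hP)
  have e0 : ∀ q, Ph ρ L (0, w, q) = ∑ g, q g • ρ g w := fun q => by
    rw [Ph_zero, Finset.sum_map_toList]
    simp [add_smul, Finset.sum_add_distrib, h0]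
  have hD : ∀ q, D (0, 0, q) = ∑ g, q g • ρ g w := fun q => by
    have h1 : HasDerivAt (fun t : ℝ => ((0, w, t • q) : ℝ × V × (G → ℝ))) (0, 0, q) 0 :=
      (hasDerivAt_const _ _).prodMk ((hasDerivAt_const _ _).prodMk
        (by simpa using (hasDerivAt_id (0 : ℝ)).smul_const q))
    have h2 := HasFDerivAt.comp_hasDerivAt_of_eq (0 : ℝ) hP.hasFDerivAt h1 (by simp)
    have h3 : HasDerivAt (fun t : ℝ => t • ∑ g, q g • ρ g w) (∑ g, q g • ρ g w) 0 := by
      simpa using (hasDerivAt_id (0 : ℝ)).smul_const (∑ g, q g • ρ g w)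
    refine h2.unique (h3.congr_of_eventuallyEq (Eventually.of_forall fun t => ?_))
    simp [e0, Finset.smul_sum, smul_smul]
  have hm := hΨ.map_nhds_eq_of_surj (by
    rw [LinearMap.range_eq_top]
    rintro ⟨e, v, y⟩
    obtain ⟨q, hq⟩ := hw (y - D (e, v, 0))
    refine ⟨(e, v, q), ?_⟩
    have : D (e, v, q) = D (e, v, 0) + D (0, 0, q) := by rw [← map_add]; simp
    simp [this, hD, hq])
  have hb : Ψ '' {x | ‖x.2.2‖ < 1} ∈ 𝓝 (Ψ (0, w, 0)) := by
    rw [← hm]
    exact image_mem_map ((isOpen_lt (by fun_prop) continuous_const).mem_nhds (by simp))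
  obtain ⟨δ, hδ, hs⟩ := Metric.mem_nhds_iff.1 hb
  refine ⟨δ, hδ, fun e he w' hw' y hy => ?_⟩
  obtain ⟨⟨e', v, q⟩, h1, h2⟩ := hs (show ((e, w', y) : ℝ × V × V) ∈ Metric.ball _ δ by
    simp [Ψ, e0, Prod.dist_eq, dist_eq_norm, he, hw', hy])
  simp only [Ψ, Prod.mk.injEq] at h2
  obtain ⟨rfl, rfl, h3⟩ := h2
  exact ⟨q, h1, h3⟩

variable [Module (MonoidAlgebra ℝ G) V] [IsScalarTower ℝ (MonoidAlgebra ℝ G) V]

def Reach (G : Type) [Group G] [Module (MonoidAlgebra ℝ G) V] (x y : V) : Prop :=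
  ∃ s : MonoidAlgebra ℝ G, IsP s ∧ ∃ c : ℝ, s • x = c • y ∧ c ≠ 0

omit [Fintype G] in
lemma fac_smul (g : G) (p : ℝ) (y : V) :
    fac (g, p) • y = (1 - p) • y + p • (MonoidAlgebra.of ℝ G g • y) := by
  simp only [fac, add_smul, smul_assoc, one_smul]

omit [Fintype G] in
lemma reach_Ph (ρ : G → V →L[ℝ] V) (hρ : ∀ g v, ρ g v = MonoidAlgebra.of ℝ G g • v) (L : List G)
    (e : ℝ) (he : 0 ≤ e) (w : V) (q : G → ℝ) (hq : ∀ g, 0 ≤ 1 + q g) :
    Reach G w (w + e • Ph ρ L (e, w, q)) := by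
  induction L with
  | nil => exact ⟨1, IsP.one, 1, by simp [Ph], one_ne_zero⟩
  | cons g L ih =>
    obtain ⟨s, hs, c, h, hc⟩ := ih
    have ht : 0 ≤ e * (1 + q g) := mul_nonneg he (hq g)
    set t := e * (1 + q g) with htd
    refine ⟨fac (g, t / (1 + t)) * s, (IsP.fac g (by positivity)
      (div_le_one_of_le₀ (by linarith) (by positivity))).mul hs, c / (1 + t), ?_, by positivity⟩
    rw [mul_smul, h, fac_smul, ← hρ]
    simp only [Ph, map_smul, map_add, ← htd]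
    match_scalars <;> field_simp <;> ring

lemma kill1 [FiniteDimensional ℝ V] [IsSimpleModule (MonoidAlgebra ℝ G) V]
    (h0 : ∀ v : V, (∑ g, MonoidAlgebra.of ℝ G g) • v = 0) (g : G) (v : V) (hv : v ≠ 0)
    (hg : MonoidAlgebra.of ℝ G g • v = -v) (u : V) (hu : u ≠ 0) :
    ∃ s : MonoidAlgebra ℝ G, IsP s ∧ s • u = 0 := by
  have hT : ∀ c : ℝ, fac (g, 1 / 2) • (c • v) = 0 := fun c => by
    rw [smul_comm, fac_smul, hg]; norm_num
  have hF : IsP (fac (g, 1 / 2)) := IsP.fac g (by norm_num) (by norm_num)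
  by_cases hr : 1 < Module.rank ℝ V
  swap
  · obtain ⟨v0, h⟩ := rank_le_one_iff.1 (not_lt.1 hr)
    obtain ⟨a, rfl⟩ := h v
    obtain ⟨b, rfl⟩ := h u
    have ha : a ≠ 0 := fun h => hv (by simp [h])
    exact ⟨_, hF, by rw [← hT (b / a), smul_smul, div_mul_cancel₀ _ ha]⟩
  let ρ : G → V →L[ℝ] V := fun g => LinearMap.toContinuousLinearMap
    (DistribSMul.toLinearMap ℝ V (MonoidAlgebra.of ℝ G g))
  have hρ : ∀ g v, ρ g v = MonoidAlgebra.of ℝ G g • v := fun _ _ => rfl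
  have key : Reach G u v := by
    refine (isConnected_compl_singleton_of_one_lt_rank hr 0).isPreconnected.induction₂'
      (Reach G) (fun w hw => ?_) ?_ hu hv
    · obtain ⟨δ, hδ, h⟩ := loc ρ (fun v => by simp only [hρ, ← Finset.sum_smul, h0]) w fun y => by
        obtain ⟨a, rfl⟩ := IsSimpleModule.toSpanSingleton_surjective (MonoidAlgebra ℝ G) hw y
        refine ⟨fun g => a.coeff g, ?_⟩
        simp only [hρ, ← smul_assoc, ← Finset.sum_smul, LinearMap.toSpanSingleton_apply]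
        congr 1
        ext x
        classical
        simp [Finsupp.single_apply]
      refine mem_nhdsWithin_of_mem_nhds ?_
      filter_upwards [Metric.ball_mem_nhds w (lt_min hδ (mul_pos (half_pos hδ) hδ))] with w' hw'
      rw [Metric.mem_ball, dist_eq_norm, lt_min_iff] at hw'
      have he : |δ / 2| < δ := by rw [abs_of_pos (half_pos hδ)]; linarith
      have hn : ‖(δ / 2)⁻¹ • (w' - w)‖ < δ := by
        rw [norm_smul, Real.norm_eq_abs, abs_of_pos (by positivity), inv_mul_lt_iff₀ (half_pos hδ)]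
        exact hw'.2
      have hq : ∀ q : G → ℝ, ‖q‖ < 1 → ∀ g, 0 ≤ 1 + q g := fun q hq g => by
        have := (abs_le.1 ((norm_le_pi_norm q g).trans hq.le)).1
        linarith
      constructor
      · obtain ⟨q, h1, h2⟩ := h _ he w (by simpa using hδ) _ hn
        have := reach_Ph ρ hρ Finset.univ.toList _ (half_pos hδ).le w q (hq q h1)
        rwa [h2, smul_inv_smul₀ (half_pos hδ).ne', add_sub_cancel] at this
      · obtain ⟨q, h1, h2⟩ := h _ he w' hw'.1 (-((δ / 2)⁻¹ • (w' - w))) (by rwa [norm_neg])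
        have := reach_Ph ρ hρ Finset.univ.toList _ (half_pos hδ).le w' q (hq q h1)
        rwa [h2, smul_neg, smul_inv_smul₀ (half_pos hδ).ne', neg_sub, add_sub_cancel] at this
    · rintro x y z - - - ⟨s, hs, c, h, hc⟩ ⟨s', hs', c', h', hc'⟩
      exact ⟨s' * s, hs'.mul hs, c * c', by rw [mul_smul, h, smul_comm, h', smul_smul],
        mul_ne_zero hc hc'⟩
  obtain ⟨s, hs, c, h, -⟩ := key
  exact ⟨_, hF.mul hs, by rw [mul_smul, h, hT]⟩

end Loc

lemma kill2 {V : Type} [AddCommGroup V] [Module ℝ V] [FiniteDimensional ℝ V]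
    [Module (MonoidAlgebra ℝ G) V] [IsScalarTower ℝ (MonoidAlgebra ℝ G) V]
    (h : ∀ u : V, u ≠ 0 → ∃ s : MonoidAlgebra ℝ G, IsP s ∧ s • u = 0) (n : ℕ) :
    ∀ U : Submodule ℝ V, Module.finrank ℝ U = n →
      ∃ s : MonoidAlgebra ℝ G, IsP s ∧ ∀ u ∈ U, s • u = 0 := by
  induction n using Nat.strong_induction_on with
  | _ n ih =>
    intro U hU
    by_cases hb : U = ⊥
    · exact ⟨1, IsP.one, fun u hu => by rw [hb, Submodule.mem_bot] at hu; simp [hu]⟩
    obtain ⟨u, hu, hu0⟩ := (Submodule.ne_bot_iff U).1 hb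
    obtain ⟨s, hs, h1⟩ := h u hu0
    let f : U →ₗ[ℝ] V := (DistribSMul.toLinearMap ℝ V s).comp U.subtype
    have h2 := LinearMap.finrank_range_add_finrank_ker f
    have h3 : 0 < Module.finrank ℝ (LinearMap.ker f) :=
      Module.finrank_pos_iff_exists_ne_zero.2 ⟨⟨⟨u, hu⟩, h1⟩, fun e =>
        hu0 (congrArg (fun x : LinearMap.ker f => (x.1 : V)) e)⟩
    obtain ⟨t, ht, h4⟩ := ih _ (by omega) (LinearMap.range f) rfl
    exact ⟨t * s, ht.mul hs, fun x hx => by rw [mul_smul]; exact h4 _ ⟨⟨x, hx⟩, rfl⟩⟩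

lemma kill3 [Fintype G] (hG : ∀ N : Subgroup G, N.Normal → Odd N.index → N = ⊤)
    {V : Type} [AddCommGroup V] [Module ℝ V] [FiniteDimensional ℝ V]
    [Module (MonoidAlgebra ℝ G) V] [IsScalarTower ℝ (MonoidAlgebra ℝ G) V]
    [IsSimpleModule (MonoidAlgebra ℝ G) V]
    (h0 : ∀ v : V, (∑ g, MonoidAlgebra.of ℝ G g) • v = 0) :
    ∃ s : MonoidAlgebra ℝ G, IsP s ∧ ∀ u : V, s • u = 0 := by
  let φ : G →* Equiv.Perm V := MulAction.toPermHom (MonoidAlgebra ℝ G)ˣ V |>.comp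
    (MonoidAlgebra.of ℝ G).toHomUnits
  have hφ : ∀ g v, φ g v = MonoidAlgebra.of ℝ G g • v := fun _ _ => rfl
  have hne : φ.ker ≠ ⊤ := fun h => by
    have := IsSimpleModule.nontrivial (MonoidAlgebra ℝ G) V
    obtain ⟨v, hv⟩ := exists_ne (0 : V)
    have h1 : ∀ g, MonoidAlgebra.of ℝ G g • v = v := fun g => by
      rw [← hφ, show φ g = 1 from (h ▸ Subgroup.mem_top g : g ∈ φ.ker)]; rfl
    have := h0 v
    simp only [Finset.sum_smul, h1, Finset.sum_const, Finset.card_univ,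
      ← Nat.cast_smul_eq_nsmul ℝ] at this
    exact hv ((smul_eq_zero.1 this).resolve_left (by simp))
  have hev : 2 ∣ Nat.card (G ⧸ φ.ker) :=
    even_iff_two_dvd.1 (Nat.not_odd_iff_even.1 fun h => hne (hG _ inferInstance h))
  obtain ⟨x, hx⟩ := exists_prime_orderOf_dvd_card' 2 hev
  obtain ⟨g, rfl⟩ := QuotientGroup.mk'_surjective _ x
  have h1 : φ g ≠ 1 := fun h => by
    rw [show QuotientGroup.mk' φ.ker g = 1 from (QuotientGroup.eq_one_iff _).2 h] at hx
    simp at hx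
  have h2 : φ (g * g) = 1 := (QuotientGroup.eq_one_iff (N := φ.ker) _).1 (by
    have := pow_orderOf_eq_one (QuotientGroup.mk' φ.ker g)
    rwa [hx, pow_two, ← map_mul] at this)
  obtain ⟨y, hy⟩ : ∃ y, φ g y ≠ y := by
    by_contra h
    push Not at h
    exact h1 (Equiv.ext h)
  let e := (Module.finBasis ℝ V).equivFun
  letI := NormedAddCommGroup.induced V _ e.toLinearMap e.injective
  letI := NormedSpace.induced ℝ V _ e.toLinearMap
  obtain ⟨s, hs, h⟩ := kill2 (kill1 h0 g (y - φ g y) (sub_ne_zero.2 hy.symm) (by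
    rw [smul_sub, ← hφ, ← hφ, ← Equiv.Perm.mul_apply, ← map_mul, h2]; simp)) _ ⊤ rfl
  exact ⟨s, hs, fun u => h u trivial⟩

theorem result (G : Type) [Group G] [Fintype G]
    (hG : ∀ N : Subgroup G, N.Normal → Odd N.index → N = ⊤) : IsMixable G := by
  set σ := ∑ g, MonoidAlgebra.of ℝ G g with hσ
  have hg : ∀ g, MonoidAlgebra.of ℝ G g * σ = σ := fun g => by
    rw [hσ, Finset.mul_sum]
    exact Fintype.sum_equiv (Equiv.mulLeft g) _ _ fun x => (map_mul _ _ _).symm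
  have hg' : ∀ g, σ * MonoidAlgebra.of ℝ G g = σ := fun g => by
    rw [hσ, Finset.sum_mul]
    exact Fintype.sum_equiv (Equiv.mulRight g) _ _ fun x => (map_mul _ _ _).symm
  have hc : ∀ a, σ * a = a * σ := fun a => by
    induction a using MonoidAlgebra.induction_on with
    | of g => rw [hg, hg']
    | add x y hx hy => rw [mul_add, add_mul, hx, hy]
    | smul r x hx => rw [mul_smul_comm, smul_mul_assoc, hx]
  let W : Submodule (MonoidAlgebra ℝ G) (MonoidAlgebra ℝ G) :=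
    LinearMap.ker (LinearMap.toSpanSingleton _ _ σ)
  obtain ⟨Z, ⟨hZW, s, hs, hZ⟩, hmax⟩ := exists_maximal_of_wellFoundedGT
    (fun Z : Submodule (MonoidAlgebra ℝ G) (MonoidAlgebra ℝ G) =>
      Z ≤ W ∧ ∃ s, IsP s ∧ ∀ z ∈ Z, s * z = 0)
    ⟨⊥, bot_le, 1, IsP.one, fun z hz => by simpa using hz⟩
  have hWZ : W ≤ Z := by
    rw [← IsSemisimpleModule.sSup_simples_le W]
    refine sSup_le fun V ⟨hV, hVW⟩ => ?_
    have : FiniteDimensional ℝ V :=
      FiniteDimensional.of_injective (V.subtype.restrictScalars ℝ) V.injective_subtype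
    obtain ⟨t, ht, h⟩ := kill3 hG (V := V) fun v => Subtype.ext (by
      have : (v : MonoidAlgebra ℝ G) * σ = 0 := hVW v.2
      rw [← hc] at this; exact this)
    refine le_sup_right.trans (hmax ⟨sup_le hZW hVW, t * s, ht.mul hs, fun z hz => ?_⟩ le_sup_left)
    obtain ⟨a, ha, b, hb, rfl⟩ := Submodule.mem_sup.1 hz
    rw [mul_assoc, mul_add, hZ a ha, zero_add]
    exact congrArg Subtype.val (h ⟨s * b, V.smul_mem s hb⟩)
  have h1 : (1 - (Fintype.card G : ℝ)⁻¹ • σ) ∈ W := by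
    show (1 - (Fintype.card G : ℝ)⁻¹ • σ) * σ = 0
    have : σ * σ = (Fintype.card G : ℝ) • σ := by
      conv_lhs => rw [hσ, Finset.sum_mul]
      simp only [← hσ, hg, Finset.sum_const, Finset.card_univ, Nat.cast_smul_eq_nsmul]
    rw [sub_mul, smul_mul_assoc, this, inv_smul_smul₀ (by simp)]; simp
  have h2 := hZ _ (hWZ h1)
  obtain ⟨l, hl, rfl⟩ := hs
  have h3 : ∀ l : List (G × ℝ), (l.map fac).prod * σ = σ := fun l => by
    induction l with
    | nil => simp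
    | cons x l ih =>
      rw [List.map_cons, List.prod_cons, mul_assoc, ih, fac, add_mul, smul_mul_assoc,
        smul_mul_assoc, hg, one_mul, ← add_smul]; simp
  rw [mul_sub, mul_smul_comm, h3, mul_one, sub_eq_zero] at h2
  exact ⟨l, hl, h2⟩

end Pool.Agent.Results.MP_892d82_al.Mixable
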